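import Mathlib

/-!
Isbell–Mrówka spaces which admit a continuous map to a metric space that is injective on the
almost disjoint family: such a space of cardinality at least `𝔡` is not star-Menger, and such a
space of cardinality at least `𝔟` is not star-Hurewicz.
-/

namespace Pool.Agent.W912.StarPsi

open Set Topology Filter

open scoped Cardinal

/-- Almost disjoint families of infinite subsets of `ℕ`. -/
def IsAD (A : Set (Set ℕ)) : Prop :=
  (∀ a ∈ A, a.Infinite) ∧ ∀ a ∈ A, ∀ b ∈ A, a ≠ b → (a ∩ b).Finite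

/-- The underlying set `ℕ ∪ A` of the Isbell–Mrówka space `Ψ(A)`. -/
def Psi (A : Set (Set ℕ)) : Type := ℕ ⊕ A

/-- The points of `ℕ` in `Ψ(A)`. -/
def Psi.nat {A : Set (Set ℕ)} (n : ℕ) : Psi A := Sum.inl n

/-- The points of `A` in `Ψ(A)`. -/
def Psi.pt {A : Set (Set ℕ)} (a : A) : Psi A := Sum.inr a

/-- The topology of `Ψ(A)`: a set `U` is open iff for every `a ∈ A` which belongs to `U`, all but
finitely many elements of `a` belong to `U`. -/
instance (A : Set (Set ℕ)) : TopologicalSpace (Psi A) where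
  IsOpen U := ∀ a : A, Psi.pt a ∈ U → {n : ℕ | n ∈ (a : Set ℕ) ∧ Psi.nat n ∉ U}.Finite
  isOpen_univ := by
    intro a _
    simp
  isOpen_inter := by
    intro s t hs ht a ha
    refine ((hs a ha.1).union (ht a ha.2)).subset ?_
    rintro n ⟨hn, hn'⟩
    by_cases h : Psi.nat n ∈ s
    · right
      exact ⟨hn, fun h' => hn' ⟨h, h'⟩⟩
    · left
      exact ⟨hn, h⟩
  isOpen_sUnion := by
    intro s hs a ha
    obtain ⟨t, ht, hat⟩ := ha
    refine (hs t ht a hat).subset ?_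
    rintro n ⟨hn, hn'⟩
    exact ⟨hn, fun h => hn' ⟨t, ht, h⟩⟩

theorem isOpen_psi {A : Set (Set ℕ)} {U : Set (Psi A)} :
    IsOpen U ↔ ∀ a : A, Psi.pt a ∈ U → {n : ℕ | n ∈ (a : Set ℕ) ∧ Psi.nat n ∉ U}.Finite :=
  Iff.rfl

/-- The star of a set `S` with respect to a family `U`. -/
def star {X : Type*} (S : Set X) (U : Set (Set X)) : Set X :=
  ⋃₀ {V | V ∈ U ∧ (V ∩ S).Nonempty}

/-- Open covers. -/
def IsOpenCover' {X : Type*} [TopologicalSpace X] (U : Set (Set X)) : Prop :=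
  (∀ V ∈ U, IsOpen V) ∧ ⋃₀ U = Set.univ

/-- Star-Menger spaces. -/
def StarMenger (X : Type*) [TopologicalSpace X] : Prop :=
  ∀ U : ℕ → Set (Set X), (∀ n, IsOpenCover' (U n)) →
    ∃ F : ℕ → Set (Set X), (∀ n, (F n).Finite ∧ F n ⊆ U n) ∧
      ∀ x : X, ∃ n, x ∈ star (⋃₀ F n) (U n)

/-- Star-Hurewicz spaces. -/
def StarHurewicz (X : Type*) [TopologicalSpace X] : Prop :=
  ∀ U : ℕ → Set (Set X), (∀ n, IsOpenCover' (U n)) →
    ∃ F : ℕ → Set (Set X), (∀ n, (F n).Finite ∧ F n ⊆ U n) ∧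
      ∀ x : X, ∀ᶠ n in atTop, x ∈ star (⋃₀ F n) (U n)

/-- The dominating number. -/
noncomputable def dominatingNumber : Cardinal.{0} :=
  sInf {κ | ∃ D : Set (ℕ → ℕ), #D = κ ∧ ∀ g : ℕ → ℕ, ∃ f ∈ D, ∀ᶠ n in atTop, g n ≤ f n}

/-- The bounding number. -/
noncomputable def boundingNumber : Cardinal.{0} :=
  sInf {κ | ∃ B : Set (ℕ → ℕ), #B = κ ∧ ¬ ∃ g : ℕ → ℕ, ∀ f ∈ B, ∀ᶠ n in atTop, f n ≤ g n}

variable {A : Set (Set ℕ)}

/-- The basic neighbourhood of `a` cut at `f a n`. -/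
def nb (f : A → ℕ → ℕ) (n : ℕ) (a : A) : Set (Psi A) :=
  {p | p = Psi.pt a ∨ ∃ k : ℕ, p = Psi.nat k ∧ k ∈ (a : Set ℕ) ∧ f a n ≤ k}

theorem pt_mem_nb {f : A → ℕ → ℕ} {n : ℕ} {a b : A} : Psi.pt b ∈ nb f n a ↔ b = a := by
  unfold nb
  simp only [mem_ofPred_eq]
  constructor
  · rintro (h | ⟨k, h, _⟩)
    · exact Sum.inr.inj h
    · cases h
  · rintro rfl
    exact Or.inl rfl

theorem nat_mem_nb {f : A → ℕ → ℕ} {n : ℕ} {a : A} {k : ℕ} :
    Psi.nat k ∈ nb f n a ↔ k ∈ (a : Set ℕ) ∧ f a n ≤ k := by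
  unfold nb
  simp only [mem_ofPred_eq]
  constructor
  · rintro (h | ⟨j, h, hj⟩)
    · cases h
    · cases h
      exact hj
  · intro h
    exact Or.inr ⟨k, rfl, h⟩

/-- The open cover of `Ψ(A)` by the sets `{a} ∪ (a ∖ f a n)` and the singletons `{k}`. -/
def cov (f : A → ℕ → ℕ) (n : ℕ) : Set (Set (Psi A)) :=
  {V | (∃ a, V = nb f n a) ∨ ∃ k : ℕ, V = {Psi.nat k}}

theorem cov_cover (f : A → ℕ → ℕ) (n : ℕ) : IsOpenCover' (cov f n) := by
  constructor
  · rintro V (⟨a, rfl⟩ | ⟨k, rfl⟩)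
    · rw [isOpen_psi]
      intro b hb
      rw [pt_mem_nb] at hb
      subst hb
      refine (finite_lt_nat (f b n)).subset ?_
      rintro k ⟨hk, hk'⟩
      rw [nat_mem_nb] at hk'
      by_contra h
      exact hk' ⟨hk, not_lt.1 h⟩
    · rw [isOpen_psi]
      intro b hb
      cases hb
  · ext p
    simp only [mem_sUnion, mem_univ, iff_true]
    rcases p with k | a
    · exact ⟨{Psi.nat k}, Or.inr ⟨k, rfl⟩, rfl⟩
    · exact ⟨nb f n a, Or.inl ⟨a, rfl⟩, pt_mem_nb.2 rfl⟩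

/-- The point `a` is covered by the star at `n`. -/
def Cov (f : A → ℕ → ℕ) (F : ℕ → Set A) (H : ℕ → Set ℕ) (a : A) (n : ℕ) : Prop :=
  a ∈ F n ∨ ∃ k, k ∈ (a : Set ℕ) ∧ f a n ≤ k ∧
    (k ∈ H n ∨ ∃ b ∈ F n, k ∈ (b : Set ℕ) ∧ f b n ≤ k)

theorem nb_injective (f : A → ℕ → ℕ) (n : ℕ) : Function.Injective (nb f n) := by
  intro a b h
  have : Psi.pt a ∈ nb f n b := by
    rw [← h]
    exact pt_mem_nb.2 rfl
  exact pt_mem_nb.1 this

theorem data_of_family (f : A → ℕ → ℕ) (F : ℕ → Set (Set (Psi A)))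
    (hF : ∀ n, (F n).Finite ∧ F n ⊆ cov f n) :
    ∃ (F' : ℕ → Set A) (H : ℕ → Set ℕ), (∀ n, (F' n).Finite) ∧ (∀ n, (H n).Finite) ∧
      ∀ a n, Psi.pt a ∈ star (⋃₀ F n) (cov f n) → Cov f F' H a n := by
  refine ⟨fun n => {a | nb f n a ∈ F n}, fun n => {k | ({Psi.nat k} : Set (Psi A)) ∈ F n},
    ?_, ?_, ?_⟩
  · intro n
    exact (hF n).1.preimage (nb_injective f n).injOn
  · intro n
    refine (hF n).1.preimage (f := fun k : ℕ => ({Psi.nat k} : Set (Psi A))) ?_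
    intro k _ l _ h
    have h' : (Psi.nat k : Psi A) = Psi.nat l := singleton_injective h
    exact Sum.inl.inj h'
  · rintro a n ⟨V, ⟨hV, ⟨p, hpV, W, hW, hpW⟩⟩, haV⟩
    have hV' : V = nb f n a := by
      rcases hV with ⟨b, rfl⟩ | ⟨k, rfl⟩
      · rw [pt_mem_nb] at haV
        rw [haV]
      · cases haV
    subst hV'
    rcases (hF n).2 hW with ⟨b, rfl⟩ | ⟨k, rfl⟩
    · rcases p with k | c
      · have h1 : k ∈ (a : Set ℕ) ∧ f a n ≤ k := nat_mem_nb.1 hpV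
        have h2 : k ∈ (b : Set ℕ) ∧ f b n ≤ k := nat_mem_nb.1 hpW
        exact Or.inr ⟨k, h1.1, h1.2, Or.inr ⟨b, hW, h2.1, h2.2⟩⟩
      · have h1 : c = a := pt_mem_nb.1 hpV
        have h2 : c = b := pt_mem_nb.1 hpW
        left
        show nb f n a ∈ F n
        rw [← h1, h2]
        exact hW
    · have hp : p = Psi.nat k := hpW
      subst hp
      have h1 : k ∈ (a : Set ℕ) ∧ f a n ≤ k := nat_mem_nb.1 hpV
      exact Or.inr ⟨k, h1.1, h1.2, Or.inl hW⟩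

theorem response_hurewicz (h : StarHurewicz (Psi A)) (f : A → ℕ → ℕ) :
    ∃ (F : ℕ → Set A) (H : ℕ → Set ℕ), (∀ n, (F n).Finite) ∧ (∀ n, (H n).Finite) ∧
      ∀ a, ∀ᶠ n in atTop, Cov f F H a n := by
  obtain ⟨F, hF, hx⟩ := h (cov f) (cov_cover f)
  obtain ⟨F', H, h1, h2, h3⟩ := data_of_family f F hF
  exact ⟨F', H, h1, h2, fun a => (hx (Psi.pt a)).mono fun n hn => h3 a n hn⟩

theorem response_menger (h : StarMenger (Psi A)) (f : A → ℕ → ℕ) :
    ∃ (F : ℕ → Set A) (H : ℕ → Set ℕ), (∀ n, (F n).Finite) ∧ (∀ n, (H n).Finite) ∧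
      ∀ a, ∀ k, ∃ n, k ≤ n ∧ Cov f F H a n := by
  have key : ∀ k : ℕ, ∃ (F : ℕ → Set A) (H : ℕ → Set ℕ), (∀ n, (F n).Finite) ∧
      (∀ n, (H n).Finite) ∧ ∀ a, ∃ n, Cov (fun a n => f a (n + k)) F H a n := by
    intro k
    obtain ⟨F, hF, hx⟩ := h (cov fun a n => f a (n + k)) (cov_cover _)
    obtain ⟨F', H, h1, h2, h3⟩ := data_of_family _ F hF
    refine ⟨F', H, h1, h2, fun a => ?_⟩
    obtain ⟨n, hn⟩ := hx (Psi.pt a)
    exact ⟨n, h3 a n hn⟩
  choose F H hF hH hc using key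
  refine ⟨fun n => ⋃ k ∈ Finset.range (n + 1), F k (n - k),
    fun n => ⋃ k ∈ Finset.range (n + 1), H k (n - k), ?_, ?_, ?_⟩
  · intro n
    exact (Finset.finite_toSet (Finset.range (n + 1))).biUnion fun k _ => hF k (n - k)
  · intro n
    exact (Finset.finite_toSet (Finset.range (n + 1))).biUnion fun k _ => hH k (n - k)
  · intro a k
    obtain ⟨n, hn⟩ := hc k a
    refine ⟨n + k, by omega, ?_⟩
    have hsubF : F k n ⊆ ⋃ j ∈ Finset.range (n + k + 1), F j (n + k - j) := by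
      intro x hx
      simp only [mem_iUnion, Finset.mem_range, exists_prop]
      refine ⟨k, by omega, ?_⟩
      have : n + k - k = n := by omega
      rw [this]
      exact hx
    have hsubH : H k n ⊆ ⋃ j ∈ Finset.range (n + k + 1), H j (n + k - j) := by
      intro x hx
      simp only [mem_iUnion, Finset.mem_range, exists_prop]
      refine ⟨k, by omega, ?_⟩
      have : n + k - k = n := by omega
      rw [this]
      exact hx
    rcases hn with hn | ⟨m, hm1, hm2, hm3⟩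
    · exact Or.inl (hsubF hn)
    · refine Or.inr ⟨m, hm1, hm2, ?_⟩
      rcases hm3 with hm3 | ⟨b, hb, hb2, hb3⟩
      · exact Or.inl (hsubH hm3)
      · exact Or.inr ⟨b, hsubF hb, hb2, hb3⟩

/-! ### The metric part -/

section Metric

variable {N : Type*} [MetricSpace N] (φ : ℕ → N) (x : A → N)

/-- The set of natural numbers selected at `n`. -/
def B (f : A → ℕ → ℕ) (F : ℕ → Set A) (H : ℕ → Set ℕ) (n : ℕ) : Set ℕ :=
  {k | k ∈ H n ∨ ∃ b ∈ F n, k ∈ (b : Set ℕ) ∧ f b n ≤ k}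

/-- The compact set attached to the selection at `n`. -/
def K (f : A → ℕ → ℕ) (F : ℕ → Set A) (H : ℕ → Set ℕ) (n : ℕ) : Set N :=
  φ '' B f F H n ∪ x '' F n

theorem exists_uniform {ι : Type*} {T : Set ι} (hT : T.Finite) {p : ι → ℝ → Prop}
    (hm : ∀ i δ δ', δ' ≤ δ → p i δ → p i δ') (h : ∀ i ∈ T, ∃ δ > 0, p i δ) :
    ∃ δ > 0, ∀ i ∈ T, p i δ := by
  induction T, hT using Set.Finite.induction_on with
  | empty => exact ⟨1, one_pos, by simp⟩
  | @insert a s _ _ ih =>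
    obtain ⟨δ1, h1, h1'⟩ := ih fun i hi => h i (mem_insert_of_mem _ hi)
    obtain ⟨δ2, h2, h2'⟩ := h a (mem_insert _ _)
    refine ⟨min δ1 δ2, lt_min h1 h2, ?_⟩
    rintro i (rfl | hi)
    · exact hm _ _ _ (min_le_right _ _) h2'
    · exact hm _ _ _ (min_le_left _ _) (h1' i hi)

variable {φ x}

/-- `φ` converges to `x a` along `a`. -/
def Conv (φ : ℕ → N) (x : A → N) : Prop :=
  ∀ a : A, ∀ ε > 0, {k : ℕ | k ∈ (a : Set ℕ) ∧ ¬ dist (φ k) (x a) < ε}.Finite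

theorem K_closed (hφ : Conv φ x) {f : A → ℕ → ℕ} {F : ℕ → Set A} {H : ℕ → Set ℕ}
    (hF : ∀ n, (F n).Finite) (hH : ∀ n, (H n).Finite) (n : ℕ) : IsClosed (K φ x f F H n) := by
  have h1 : K φ x f F H n = φ '' H n ∪
      ⋃ b ∈ F n, insert (x b) (range fun k : {k : ℕ | k ∈ (b : Set ℕ) ∧ f b n ≤ k} => φ k) := by
    ext y
    simp only [K, B, mem_union, mem_image, mem_iUnion, mem_insert_iff, mem_range, mem_ofPred_eq,
      exists_prop, Subtype.exists]
    constructor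
    · rintro (⟨k, hk | ⟨b, hbA, hb, hb2⟩, rfl⟩ | ⟨b, hbA, hb, rfl⟩)
      · exact Or.inl ⟨k, hk, rfl⟩
      · exact Or.inr ⟨b, hbA, hb, Or.inr ⟨k, hb2, rfl⟩⟩
      · exact Or.inr ⟨b, hbA, hb, Or.inl rfl⟩
    · rintro (⟨k, hk, rfl⟩ | ⟨b, hbA, hb, rfl | ⟨k, hk, rfl⟩⟩)
      · exact Or.inl ⟨k, Or.inl hk, rfl⟩
      · exact Or.inr ⟨b, hbA, hb, rfl⟩
      · exact Or.inl ⟨k, Or.inr ⟨b, hbA, hb, hk⟩, rfl⟩
  rw [h1]
  refine ((hH n).image φ).isClosed.union ?_
  refine (hF n).isClosed_biUnion fun b _ => ?_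
  refine IsCompact.isClosed ?_
  refine Filter.Tendsto.isCompact_insert_range_of_cofinite ?_
  rw [Metric.tendsto_nhds]
  intro ε hε
  rw [Filter.eventually_cofinite]
  refine ((hφ b ε hε).preimage (f := fun k : {k : ℕ | k ∈ (b : Set ℕ) ∧ f b n ≤ k} => (k : ℕ))
    Subtype.val_injective.injOn).subset ?_
  intro k hk
  exact ⟨k.2.1, hk⟩

theorem exists_sep {S : Set N} (hS : IsClosed S) {y : N} (hy : y ∉ S) :
    ∃ δ > 0, ∀ z ∈ S, δ ≤ dist y z := by
  obtain ⟨δ, hδ, h⟩ := Metric.isOpen_iff.1 hS.isOpen_compl y hy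
  refine ⟨δ, hδ, fun z hz => ?_⟩
  by_contra hlt
  refine h ?_ hz
  rw [Metric.mem_ball, dist_comm]
  exact not_le.1 hlt

/-- Points of the second selection which are not in the first compact set are uniformly far from
it. -/
theorem far_one (hφ : Conv φ x) (hx : Function.Injective x) (hne : ∀ k a, φ k ≠ x a)
    {f f' : A → ℕ → ℕ} {F F' : ℕ → Set A} {H H' : ℕ → Set ℕ}
    (hF : ∀ n, (F n).Finite) (hH : ∀ n, (H n).Finite)
    (hF' : ∀ n, (F' n).Finite) (hH' : ∀ n, (H' n).Finite) (m i : ℕ) :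
    ∃ δ > 0, ∀ k ∈ B f' F' H' i, φ k ∉ K φ x f F H m → ∀ z ∈ K φ x f F H m,
      δ ≤ dist (φ k) z := by
  have hcl := K_closed hφ (f := f) hF hH m
  -- one element of `F' i`
  have hb : ∀ b ∈ F' i, ∃ δ > 0, ∀ k ∈ (b : Set ℕ), φ k ∉ K φ x f F H m →
      ∀ z ∈ K φ x f F H m, δ ≤ dist (φ k) z := by
    intro b _
    have hfin : ∀ T : Set ℕ, T.Finite → ∃ δ > 0, ∀ k ∈ T, φ k ∉ K φ x f F H m →
        ∀ z ∈ K φ x f F H m, δ ≤ dist (φ k) z := by
      intro T hT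
      refine exists_uniform (p := fun k δ => φ k ∉ K φ x f F H m →
        ∀ z ∈ K φ x f F H m, δ ≤ dist (φ k) z) hT ?_ ?_
      · intro k δ δ' hδ h hk z hz
        exact hδ.trans (h hk z hz)
      · intro k _
        by_cases hk : φ k ∈ K φ x f F H m
        · exact ⟨1, one_pos, fun h => absurd hk h⟩
        · obtain ⟨δ, hδ, h⟩ := exists_sep hcl hk
          exact ⟨δ, hδ, fun _ => h⟩
    by_cases hbF : b ∈ F m
    · -- almost all of `b` is in the compact set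
      obtain ⟨δ, hδ, h⟩ := hfin {k | k < f b m} (finite_lt_nat _)
      refine ⟨δ, hδ, fun k hk hk' z hz => ?_⟩
      by_cases hlt : k < f b m
      · exact h k hlt hk' z hz
      · exact absurd (Or.inl ⟨k, Or.inr ⟨b, hbF, hk, not_lt.1 hlt⟩, rfl⟩) hk'
    · have hxb : x b ∉ K φ x f F H m := by
        rintro (⟨k, _, hk⟩ | ⟨c, hc, hc'⟩)
        · exact hne k b hk
        · rw [hx hc'] at hc
          exact hbF hc
      obtain ⟨ε, hε, hsep⟩ := exists_sep hcl hxb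
      obtain ⟨δ, hδ, h⟩ := hfin _ (hφ b (ε / 2) (by positivity))
      refine ⟨min δ (ε / 2), lt_min hδ (by positivity), fun k hk hk' z hz => ?_⟩
      by_cases hd : dist (φ k) (x b) < ε / 2
      · have h1 := hsep z hz
        have h2 := dist_triangle (x b) (φ k) z
        rw [dist_comm (x b) (φ k)] at h2
        exact (min_le_right _ _).trans (by linarith)
      · exact (min_le_left _ _).trans (h k ⟨hk, hd⟩ hk' z hz)
  obtain ⟨δ1, hδ1, h1⟩ := exists_uniform (p := fun b δ => ∀ k ∈ (b : Set ℕ),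
    φ k ∉ K φ x f F H m → ∀ z ∈ K φ x f F H m, δ ≤ dist (φ k) z) (hF' i)
    (fun b δ δ' hδ h k hk hk' z hz => hδ.trans (h k hk hk' z hz)) hb
  obtain ⟨δ2, hδ2, h2⟩ := exists_uniform (p := fun k δ =>
    φ k ∉ K φ x f F H m → ∀ z ∈ K φ x f F H m, δ ≤ dist (φ k) z) (hH' i)
    (fun k δ δ' hδ h hk' z hz => hδ.trans (h hk' z hz)) (by
      intro k _
      by_cases hk : φ k ∈ K φ x f F H m
      · exact ⟨1, one_pos, fun h => absurd hk h⟩
      · obtain ⟨δ, hδ, h⟩ := exists_sep hcl hk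
        exact ⟨δ, hδ, fun _ => h⟩)
  refine ⟨min δ1 δ2, lt_min hδ1 hδ2, ?_⟩
  rintro k (hk | ⟨b, hb, hkb, _⟩) hk' z hz
  · exact (min_le_right _ _).trans (h2 k hk hk' z hz)
  · exact (min_le_left _ _).trans (h1 b hb k hkb hk' z hz)

theorem far_le (hφ : Conv φ x) (hx : Function.Injective x) (hne : ∀ k a, φ k ≠ x a)
    {f f' : A → ℕ → ℕ} {F F' : ℕ → Set A} {H H' : ℕ → Set ℕ}
    (hF : ∀ n, (F n).Finite) (hH : ∀ n, (H n).Finite)
    (hF' : ∀ n, (F' n).Finite) (hH' : ∀ n, (H' n).Finite) (m : ℕ) :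
    ∃ δ > 0, ∀ i ≤ m, ∀ k ∈ B f' F' H' i, φ k ∉ K φ x f F H m → ∀ z ∈ K φ x f F H m,
      δ ≤ dist (φ k) z := by
  refine exists_uniform (T := {i | i ≤ m}) (p := fun i δ => ∀ k ∈ B f' F' H' i,
    φ k ∉ K φ x f F H m → ∀ z ∈ K φ x f F H m, δ ≤ dist (φ k) z) (finite_le_nat m) ?_ ?_
  · intro i δ δ' hδ h k hk hk' z hz
    exact hδ.trans (h k hk hk' z hz)
  · intro i _
    exact far_one hφ hx hne hF hH hF' hH' m i

theorem K_countable {f : A → ℕ → ℕ} {F : ℕ → Set A} {H : ℕ → Set ℕ}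
    (hF : ∀ n, (F n).Finite) (n : ℕ) : (K φ x f F H n).Countable :=
  ((to_countable _).image φ).union ((hF n).countable.image x)

/-- The two-round argument. -/
theorem two_rounds (hφ : Conv φ x) (hx : Function.Injective x) (hne : ∀ k a, φ k ≠ x a)
    (g : A → ℕ → ℕ) :
    ∃ f : A → ℕ → ℕ, ∀ (F : ℕ → Set A) (H : ℕ → Set ℕ), (∀ n, (F n).Finite) →
      (∀ n, (H n).Finite) → (∀ a, ∀ k, ∃ n, k ≤ n ∧ Cov f F H a n) →
      ∃ (f' : A → ℕ → ℕ) (q : A → ℕ → ℕ), (∀ a n, n ≤ q a n) ∧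
        (∀ a n, Cov f F H a n → q a n = n) ∧
        ∀ (F' : ℕ → Set A) (H' : ℕ → Set ℕ), (∀ n, (F' n).Finite) → (∀ n, (H' n).Finite) →
          ∃ (G : ℕ → ℕ) (C : Set A), C.Countable ∧
            ∀ a ∉ C, ∀ n, Cov f' F' H' a n → g a (q a n) < G (q a n) := by
  classical
  -- moduli of convergence
  have hμ : ∀ a : A, ∀ ε : ℝ, ∃ j : ℕ, 0 < ε → ∀ k ∈ (a : Set ℕ), j ≤ k →
      dist (φ k) (x a) < ε := by
    intro a ε
    by_cases hε : 0 < ε
    · obtain ⟨j, hj⟩ := (hφ a ε hε).bddAbove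
      refine ⟨j + 1, fun _ k hk hjk => ?_⟩
      by_contra h
      have := hj ⟨hk, h⟩
      omega
    · exact ⟨0, fun h => absurd h hε⟩
  choose μ hμ using hμ
  refine ⟨fun a n => μ a ((1 / 2 : ℝ) ^ g a n), ?_⟩
  intro F H hF hH hcov
  set f : A → ℕ → ℕ := fun a n => μ a ((1 / 2 : ℝ) ^ g a n) with hf
  -- near points
  have hnear : ∀ a n, Cov f F H a n → ∃ z ∈ K φ x f F H n, dist z (x a) < (1 / 2 : ℝ) ^ g a n := by
    rintro a n (h | ⟨k, hk, hk2, hk3⟩)
    · exact ⟨x a, Or.inr ⟨a, h, rfl⟩, by rw [dist_self]; positivity⟩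
    · exact ⟨φ k, Or.inl ⟨k, hk3, rfl⟩, hμ a _ (by positivity) k hk hk2⟩
  -- the next good index
  have hq : ∀ a n, ∃ m, n ≤ m ∧ Cov f F H a m := fun a n => hcov a n
  let q : A → ℕ → ℕ := fun a n => Nat.find (hq a n)
  have hq1 : ∀ a n, n ≤ q a n := fun a n => (Nat.find_spec (hq a n)).1
  have hq2 : ∀ a n, Cov f F H a (q a n) := fun a n => (Nat.find_spec (hq a n)).2
  have hq3 : ∀ a n, Cov f F H a n → q a n = n := by
    intro a n h
    refine le_antisymm ?_ (hq1 a n)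
    exact Nat.find_min' (hq a n) ⟨le_rfl, h⟩
  -- separation
  have he : ∀ a : A, ∀ m : ℕ, ∃ e : ℝ, x a ∉ K φ x f F H m →
      0 < e ∧ ∀ z ∈ K φ x f F H m, 2 * e ≤ dist (x a) z := by
    intro a m
    by_cases h : x a ∈ K φ x f F H m
    · exact ⟨0, fun h' => absurd h h'⟩
    · obtain ⟨δ, hδ, h'⟩ := exists_sep (K_closed hφ hF hH m) h
      exact ⟨δ / 2, fun _ => ⟨by positivity, fun z hz => by linarith [h' z hz]⟩⟩
  choose e he using he
  refine ⟨fun a n => μ a (e a (q a n)), q, hq1, hq3, ?_⟩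
  set f' : A → ℕ → ℕ := fun a n => μ a (e a (q a n)) with hf'
  intro F' H' hF' hH'
  have hfar : ∀ m, ∃ G : ℕ, ∀ i ≤ m, ∀ k ∈ B f' F' H' i, φ k ∉ K φ x f F H m →
      ∀ z ∈ K φ x f F H m, 2 * (1 / 2 : ℝ) ^ G ≤ dist (φ k) z := by
    intro m
    obtain ⟨δ, hδ, h⟩ := far_le hφ hx hne (f := f) (f' := f') hF hH hF' hH' m
    obtain ⟨G, hG⟩ := exists_pow_lt_of_lt_one (show (0 : ℝ) < δ / 2 by positivity)
      (show (1 / 2 : ℝ) < 1 by norm_num)
    exact ⟨G, fun i hi k hk hk' z hz => le_trans (by linarith) (h i hi k hk hk' z hz)⟩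
  choose G hG using hfar
  refine ⟨G, {a | (∃ n, x a ∈ K φ x f F H n) ∨ ∃ n, x a ∈ K φ x f' F' H' n}, ?_, ?_⟩
  · have h1 : {a : A | (∃ n, x a ∈ K φ x f F H n) ∨ ∃ n, x a ∈ K φ x f' F' H' n} =
        x ⁻¹' ((⋃ n, K φ x f F H n) ∪ ⋃ n, K φ x f' F' H' n) := by
      ext a
      simp
    rw [h1]
    refine Countable.preimage_of_injOn ?_ hx.injOn
    exact (countable_iUnion fun n => K_countable hF n).union
      (countable_iUnion fun n => K_countable hF' n)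
  · intro a ha n hc
    have ha1 : ∀ n, x a ∉ K φ x f F H n := fun n h => ha (Or.inl ⟨n, h⟩)
    have ha2 : ∀ n, x a ∉ K φ x f' F' H' n := fun n h => ha (Or.inr ⟨n, h⟩)
    obtain ⟨hepos, hesep⟩ := he a (q a n) (ha1 (q a n))
    rcases hc with hc | ⟨k, hk, hk2, hk3⟩
    · exact absurd (Or.inr ⟨a, hc, rfl⟩) (ha2 n)
    · have hd : dist (φ k) (x a) < e a (q a n) := hμ a _ hepos k hk hk2
      obtain ⟨z, hz, hzd⟩ := hnear a (q a n) (hq2 a n)
      have hzs := hesep z hz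
      have hkK : φ k ∉ K φ x f F H (q a n) := by
        intro h
        have := hesep _ h
        rw [dist_comm] at this
        linarith
      have h1 := hG (q a n) n (hq1 a n) k hk3 hkK z hz
      by_contra hlt
      have h2 : (1 / 2 : ℝ) ^ g a (q a n) ≤ (1 / 2 : ℝ) ^ G (q a n) :=
        pow_le_pow_of_le_one (by norm_num) (by norm_num) (not_lt.1 hlt)
      have h3 := dist_triangle (φ k) (x a) z
      rw [dist_comm z (x a)] at hzd
      linarith

end Metric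

/-! ### Domination -/

theorem exists_above {C : Set A} (hC : C.Countable) (g : A → ℕ → ℕ) (G : ℕ → ℕ) :
    ∃ G' : ℕ → ℕ, (∀ m, G m ≤ G' m) ∧ ∀ a ∈ C, ∀ᶠ m in atTop, g a m < G' m := by
  rcases C.eq_empty_or_nonempty with rfl | hne
  · exact ⟨G, fun _ => le_rfl, by simp⟩
  · obtain ⟨c, hc⟩ := hC.exists_eq_range hne
    refine ⟨fun m => max (G m) ((Finset.range (m + 1)).sup (fun i => g (c i) m) + 1),
      fun m => le_max_left _ _, ?_⟩
    intro a ha
    rw [hc] at ha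
    obtain ⟨i, rfl⟩ := ha
    filter_upwards [eventually_ge_atTop i] with m hm
    refine lt_of_lt_of_le ?_ (le_max_right _ _)
    refine Nat.lt_succ_of_le ?_
    exact Finset.le_sup (f := fun i => g (c i) m) (Finset.mem_range.2 (by omega))

theorem exists_dominating : ∃ D : Set (ℕ → ℕ), #D = dominatingNumber ∧
    ∀ g : ℕ → ℕ, ∃ f ∈ D, ∀ᶠ n in atTop, g n ≤ f n := by
  have : dominatingNumber ∈ {κ | ∃ D : Set (ℕ → ℕ), #D = κ ∧
      ∀ g : ℕ → ℕ, ∃ f ∈ D, ∀ᶠ n in atTop, g n ≤ f n} :=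
    csInf_mem ⟨#(univ : Set (ℕ → ℕ)), univ, rfl,
      fun g => ⟨g, mem_univ _, Eventually.of_forall fun _ => le_rfl⟩⟩
  exact this

theorem exists_unbounded : ∃ B : Set (ℕ → ℕ), #B = boundingNumber ∧
    ¬ ∃ g : ℕ → ℕ, ∀ f ∈ B, ∀ᶠ n in atTop, f n ≤ g n := by
  have : boundingNumber ∈ {κ | ∃ B : Set (ℕ → ℕ), #B = κ ∧
      ¬ ∃ g : ℕ → ℕ, ∀ f ∈ B, ∀ᶠ n in atTop, f n ≤ g n} := by
    refine csInf_mem ⟨#(univ : Set (ℕ → ℕ)), univ, rfl, ?_⟩
    rintro ⟨g, hg⟩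
    obtain ⟨n, hn⟩ := (hg (fun n => g n + 1) (mem_univ _)).exists
    omega
  exact this

theorem countable_bounded {B : Set (ℕ → ℕ)} (hB : B.Countable) :
    ∃ g : ℕ → ℕ, ∀ f ∈ B, ∀ᶠ n in atTop, f n < g n := by
  rcases B.eq_empty_or_nonempty with rfl | hne
  · exact ⟨0, by simp⟩
  · obtain ⟨c, hc⟩ := hB.exists_eq_range hne
    refine ⟨fun m => (Finset.range (m + 1)).sup (fun i => c i m) + 1, ?_⟩
    intro a ha
    rw [hc] at ha
    obtain ⟨i, rfl⟩ := ha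
    filter_upwards [eventually_ge_atTop i] with m hm
    refine Nat.lt_succ_of_le ?_
    exact Finset.le_sup (f := fun i => c i m) (Finset.mem_range.2 (by omega))

theorem aleph0_lt_dominating : ℵ₀ < dominatingNumber := by
  obtain ⟨D, hD, hdom⟩ := exists_dominating
  rw [← hD]
  by_contra h
  have hc : D.Countable := by
    rw [← Cardinal.le_aleph0_iff_set_countable]
    exact not_lt.1 h
  obtain ⟨g, hg⟩ := countable_bounded hc
  obtain ⟨f, hf, hf'⟩ := hdom g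
  obtain ⟨n, h1, h2⟩ := ((hg f hf).and hf').exists
  omega

theorem aleph0_lt_bounding : ℵ₀ < boundingNumber := by
  obtain ⟨D, hD, hdom⟩ := exists_unbounded
  rw [← hD]
  by_contra h
  have hc : D.Countable := by
    rw [← Cardinal.le_aleph0_iff_set_countable]
    exact not_lt.1 h
  obtain ⟨g, hg⟩ := countable_bounded hc
  exact hdom ⟨g, fun f hf => (hg f hf).mono fun n hn => hn.le⟩

theorem card_psi {κ : Cardinal.{0}} (hκ : ℵ₀ < κ) (h : κ ≤ #(Psi A)) : κ ≤ #A := by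
  have h1 : #(Psi A) = ℵ₀ + #A := by
    show #(ℕ ⊕ A) = _
    simp
  by_contra hlt
  rw [h1] at h
  exact absurd h (not_le.2 (Cardinal.add_lt_of_lt hκ.le hκ (not_le.1 hlt)))

/-- A family of functions of size at most `#A` can be indexed by `A` (if it is nonempty). -/
theorem exists_index {D : Set (ℕ → ℕ)} (hD : D.Nonempty) (h : #D ≤ #A) :
    ∃ g : A → ℕ → ℕ, (∀ f ∈ D, ∃ a, g a = f) ∧ ∀ a, g a ∈ D := by
  classical
  obtain ⟨emb⟩ := Cardinal.le_def _ _ |>.1 h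
  have : Nonempty D := hD.to_subtype
  refine ⟨fun a => ((Function.invFun emb a : D) : ℕ → ℕ), ?_, fun a => (Function.invFun emb a).2⟩
  intro f hf
  refine ⟨emb ⟨f, hf⟩, ?_⟩
  show ((Function.invFun emb (emb ⟨f, hf⟩) : D) : ℕ → ℕ) = f
  rw [Function.leftInverse_invFun emb.injective]

section Final

variable {N : Type*} [MetricSpace N] {φ : ℕ → N} {x : A → N}

theorem not_starMenger (hφ : Conv φ x) (hx : Function.Injective x) (hne : ∀ k a, φ k ≠ x a)
    (hA : dominatingNumber ≤ #A) : ¬ StarMenger (Psi A) := by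
  intro hM
  obtain ⟨D, hD, hdom⟩ := exists_dominating
  have hDne : D.Nonempty := by
    obtain ⟨f, hf, _⟩ := hdom 0
    exact ⟨f, hf⟩
  obtain ⟨g, hg, _⟩ := exists_index hDne (hD.trans_le hA)
  obtain ⟨f, hf⟩ := two_rounds hφ hx hne g
  obtain ⟨F, H, hF, hH, hcov⟩ := response_menger hM f
  obtain ⟨f', q, hq1, _, hr⟩ := hf F H hF hH hcov
  obtain ⟨F', H', hF', hH', hcov'⟩ := response_menger hM f'
  obtain ⟨G, C, hC, hG⟩ := hr F' H' hF' hH'
  obtain ⟨G', hG1, hG2⟩ := exists_above hC g G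
  obtain ⟨f0, hf0, hf0'⟩ := hdom G'
  obtain ⟨a, ha⟩ := hg f0 hf0
  rw [← ha] at hf0'
  by_cases haC : a ∈ C
  · obtain ⟨n, h1, h2⟩ := ((hG2 a haC).and hf0').exists
    omega
  · obtain ⟨k, hk⟩ := eventually_atTop.1 hf0'
    obtain ⟨n, hn, hc⟩ := hcov' a k
    have h1 := hG a haC n hc
    have h2 := hk (q a n) (hn.trans (hq1 a n))
    have h3 := hG1 (q a n)
    omega

theorem not_starHurewicz (hφ : Conv φ x) (hx : Function.Injective x) (hne : ∀ k a, φ k ≠ x a)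
    (hA : boundingNumber ≤ #A) : ¬ StarHurewicz (Psi A) := by
  intro hM
  obtain ⟨D, hD, hunb⟩ := exists_unbounded
  have hDne : D.Nonempty := by
    by_contra h
    rw [not_nonempty_iff_eq_empty] at h
    subst h
    exact hunb ⟨0, by simp⟩
  obtain ⟨g, hg, _⟩ := exists_index hDne (hD.trans_le hA)
  obtain ⟨f, hf⟩ := two_rounds hφ hx hne g
  obtain ⟨F, H, hF, hH, hcov⟩ := response_hurewicz hM f
  have hcovi : ∀ a, ∀ k, ∃ n, k ≤ n ∧ Cov f F H a n := by
    intro a k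
    obtain ⟨n, h1, h2⟩ := ((hcov a).and (eventually_ge_atTop k)).exists
    exact ⟨n, h2, h1⟩
  obtain ⟨f', q, hq1, hq2, hr⟩ := hf F H hF hH hcovi
  obtain ⟨F', H', hF', hH', hcov'⟩ := response_hurewicz hM f'
  obtain ⟨G, C, hC, hG⟩ := hr F' H' hF' hH'
  obtain ⟨G', hG1, hG2⟩ := exists_above hC g G
  refine hunb ⟨G', fun f0 hf0 => ?_⟩
  obtain ⟨a, ha⟩ := hg f0 hf0
  rw [← ha]
  by_cases haC : a ∈ C
  · exact (hG2 a haC).mono fun n hn => hn.le
  · filter_upwards [hcov a, hcov' a] with n h1 h2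
    have h3 := hG a haC n h2
    rw [hq2 a n h1] at h3
    exact h3.le.trans (hG1 n)

end Final

/-! ### From continuous maps -/

/-- A continuous map from `Ψ(A)` to a metric space yields a convergence scheme with values in
the product with `ℝ`. -/
theorem conv_of_continuous {M : Type*} [MetricSpace M] {Φ : Psi A → M} (hΦ : Continuous Φ) :
    Conv (A := A) (fun k => ((Φ (Psi.nat k), (1 : ℝ) / (k + 1)) : M × ℝ))
      (fun a => (Φ (Psi.pt a), 0)) := by
  intro a ε hε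
  have hopen : IsOpen (Φ ⁻¹' Metric.ball (Φ (Psi.pt a)) ε) := Metric.isOpen_ball.preimage hΦ
  have h1 := (isOpen_psi.1 hopen) a (Metric.mem_ball_self hε)
  obtain ⟨j, hj⟩ := exists_nat_one_div_lt hε
  refine (h1.union (finite_lt_nat j)).subset ?_
  rintro k ⟨hk, hk'⟩
  by_cases hkj : k < j
  · exact Or.inr hkj
  · left
    refine ⟨hk, fun hmem => hk' ?_⟩
    have hmem' : dist (Φ (Psi.nat k)) (Φ (Psi.pt a)) < ε := hmem
    rw [Prod.dist_eq, max_lt_iff]
    refine ⟨hmem', ?_⟩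
    show dist ((1 : ℝ) / (k + 1)) 0 < ε
    rw [Real.dist_eq, sub_zero, abs_of_pos (by positivity)]
    refine lt_of_le_of_lt ?_ hj
    have : (j : ℝ) ≤ k := by exact_mod_cast not_lt.1 hkj
    exact one_div_le_one_div_of_le (by positivity) (by linarith)

/-- `Ψ(A)` admits a continuous map into some metrizable space which is injective on `A`
(for instance, `A` is `ℝ`-embeddable). -/
def MetricEmbeddable (A : Set (Set ℕ)) : Prop :=
  ∃ (M : Type) (_ : TopologicalSpace M) (_ : TopologicalSpace.MetrizableSpace M)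
    (Φ : Psi A → M), Continuous Φ ∧ ∀ a b : A, Φ (Psi.pt a) = Φ (Psi.pt b) → a = b

theorem not_starMenger_of_embeddable (h : MetricEmbeddable A)
    (hA : dominatingNumber ≤ #(Psi A)) : ¬ StarMenger (Psi A) := by
  obtain ⟨M, _, _, Φ, hΦ, hinj⟩ := h
  letI := TopologicalSpace.metrizableSpaceMetric M
  refine not_starMenger (conv_of_continuous hΦ) ?_ ?_ (card_psi aleph0_lt_dominating hA)
  · intro a b hab
    exact hinj a b (Prod.ext_iff.1 hab).1
  · intro k a hk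
    have h2 : (1 : ℝ) / (k + 1) = 0 := (Prod.ext_iff.1 hk).2
    have h3 : (0 : ℝ) < (1 : ℝ) / (k + 1) := by positivity
    linarith

theorem not_starHurewicz_of_embeddable (h : MetricEmbeddable A)
    (hA : boundingNumber ≤ #(Psi A)) : ¬ StarHurewicz (Psi A) := by
  obtain ⟨M, _, _, Φ, hΦ, hinj⟩ := h
  letI := TopologicalSpace.metrizableSpaceMetric M
  refine not_starHurewicz (conv_of_continuous hΦ) ?_ ?_ (card_psi aleph0_lt_bounding hA)
  · intro a b hab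
    exact hinj a b (Prod.ext_iff.1 hab).1
  · intro k a hk
    have h2 : (1 : ℝ) / (k + 1) = 0 := (Prod.ext_iff.1 hk).2
    have h3 : (0 : ℝ) < (1 : ℝ) / (k + 1) := by positivity
    linarith

/-- Every set of points of `A` is closed in `Ψ(A)`. -/
theorem isClosed_pts (S : Set A) : IsClosed (Psi.pt '' S : Set (Psi A)) := by
  rw [← isOpen_compl_iff, isOpen_psi]
  intro a _
  refine finite_empty.subset ?_
  rintro n ⟨_, hn⟩
  refine hn ?_
  rintro ⟨b, _, hb⟩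
  cases hb

/-- If `Ψ(A)` is normal, then it admits a continuous map into `ℝ^ℕ` that is injective on `A`. -/
theorem embeddable_of_normal (h : NormalSpace (Psi A)) : MetricEmbeddable A := by
  have key : ∀ i : ℕ, ∃ f : C(Psi A, ℝ),
      (∀ a : A, i ∉ (a : Set ℕ) → f (Psi.pt a) = 0) ∧
      ∀ a : A, i ∈ (a : Set ℕ) → f (Psi.pt a) = 1 := by
    intro i
    obtain ⟨f, h0, h1, _⟩ := exists_continuous_zero_one_of_isClosed
      (isClosed_pts {a : A | i ∉ (a : Set ℕ)}) (isClosed_pts {a : A | i ∈ (a : Set ℕ)}) (by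
        rw [Set.disjoint_left]
        rintro p ⟨a, ha, rfl⟩ ⟨b, hb, hab⟩
        have : b = a := Sum.inr.inj hab
        rw [this] at hb
        exact ha hb)
    exact ⟨f, fun a ha => h0 ⟨a, ha, rfl⟩, fun a ha => h1 ⟨a, ha, rfl⟩⟩
  choose f h0 h1 using key
  refine ⟨ℕ → ℝ, inferInstance, inferInstance, fun p i => f i p,
    continuous_pi fun i => (f i).continuous, ?_⟩
  intro a b hab
  apply Subtype.ext
  ext i
  have hi : f i (Psi.pt a) = f i (Psi.pt b) := congrFun hab i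
  by_cases ha : i ∈ (a : Set ℕ) <;> by_cases hb : i ∈ (b : Set ℕ)
  · exact ⟨fun _ => hb, fun _ => ha⟩
  · rw [h1 i a ha, h0 i b hb] at hi
    norm_num at hi
  · rw [h0 i a ha, h1 i b hb] at hi
    norm_num at hi
  · exact ⟨fun h => absurd h ha, fun h => absurd h hb⟩

end Pool.Agent.W912.StarPsi
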